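import Pool.Agent.R664.IAS.Main

/-!
# A finitely generated residually finite group with infinite residually finite outer automorphism
group which is not inner automorphism separable

The group is the subgroup of `∏ k, Sym (ZMod (2 k + 4) × S₃)` generated by the shift of the first
coordinate, the left translations by `S₃`, and the three-cycles on the points of the window
`{0, 1} × S₃` (acting in all coordinates simultaneously).  The right translations by `S₃`
normalize it and induce outer automorphisms which become inner in every finite quotient.
-/

set_option autoImplicit false

namespace Pool.Agent.Results.MP_48d09b_al.NotIAS

open Pool.Agent.R664.IAS

/-- There is a finitely generated residually finite group `G` such that `Out G` is infinite and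
residually finite, but `G` is not inner automorphism separable. -/
theorem result : ∃ (G : Type) (_ : Group G),
    Group.FG G ∧ RF G ∧ RF (Out G) ∧ Infinite (Out G) ∧ ¬ InnerAutSeparable G :=
  main

end Pool.Agent.Results.MP_48d09b_al.NotIAS
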